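import Pool.Agent.Work.MP_69b7b0_lc.Defs

/-!
Runs of an arbitrary rule that only makes rotations which strictly decrease the weighted path
length.
-/

namespace Pool.Agent.Work.MP_69b7b0_lc

namespace BT

/-- `DecRots w k T T'`: `T'` is obtained from `T` by `k` rotations, at any edges, each of which
strictly decreases the weighted path length for the weights `w`. -/
inductive DecRots (w : ℕ → ℕ) : ℕ → BT → BT → Prop
  | zero (T : BT) : DecRots w 0 T T
  | succ (k : ℕ) (T T' T'' : BT) :
      Rot T T' → wpl w T' < wpl w T → DecRots w k T' T'' → DecRots w (k + 1) T T''

/-- `GreedyRun T w σ c`: from the tree `T` and the access counts `w` the request sequence `σ` is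
served at total cost `c` in the following way: an access costs the depth of the key, its count
goes up by one, and then any number of rotations is made, at cost one each, every one of which
strictly decreases the weighted path length for the current counts. -/
inductive GreedyRun : BT → (ℕ → ℕ) → List ℕ → ℕ → Prop
  | done (T : BT) (w : ℕ → ℕ) : GreedyRun T w [] 0
  | access (T T' : BT) (w : ℕ → ℕ) (x k c : ℕ) (σ : List ℕ) :
      DecRots (Function.update w x (w x + 1)) k T T' →
      GreedyRun T' (Function.update w x (w x + 1)) σ c →
      GreedyRun T w (x :: σ) (T.depth x + k + c)

end BT

end Pool.Agent.Work.MP_69b7b0_lc
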