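import Pool.Agent.Work.MP_69b7b0_lc.Proof
import Pool.Agent.Work.MP_69b7b0_lc.G.Defs

namespace Pool.Agent.Work.MP_69b7b0_lc

namespace BT

lemma rotUp_eq_or_rot (x : ℕ) (T : BT) : rotUp x T = T ∨ Rot T (rotUp x T) := by
  induction T with
  | nil => exact Or.inl rfl
  | node l y r ihl ihr =>
    unfold rotUp
    by_cases h1 : x < y
    · rw [if_pos h1]
      by_cases h2 : l.root = some x
      · rw [if_pos h2]
        cases l with
        | nil => simp [root] at h2
        | node a z b => exact Or.inr (Rot.right a b r z y)
      · rw [if_neg h2]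
        rcases ihl with h | h
        · exact Or.inl (by rw [h])
        · exact Or.inr (Rot.inLeft _ _ _ _ h)
    · rw [if_neg h1]
      by_cases h3 : y < x
      · rw [if_pos h3]
        by_cases h2 : r.root = some x
        · rw [if_pos h2]
          cases r with
          | nil => simp [root] at h2
          | node a z b => exact Or.inr (Rot.left l a b y z)
        · rw [if_neg h2]
          rcases ihr with h | h
          · exact Or.inl (by rw [h])
          · exact Or.inr (Rot.inRight _ _ _ _ h)
      · rw [if_neg h3]
        exact Or.inl rfl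

lemma decRots_iter (w : ℕ → ℕ) (x k : ℕ) : ∀ T : BT,
    (∀ i < k, wpl w ((rotUp x)^[i + 1] T) < wpl w ((rotUp x)^[i] T)) →
    DecRots w k T ((rotUp x)^[k] T) := by
  induction k with
  | zero => intro T _; exact DecRots.zero T
  | succ k ih =>
    intro T h
    have h0 : wpl w (rotUp x T) < wpl w T := by simpa using h 0 (Nat.succ_pos k)
    have h1 : Rot T (rotUp x T) := by
      rcases rotUp_eq_or_rot x T with e | e
      · rw [e] at h0; exact absurd h0 (lt_irrefl _)
      · exact e
    rw [Function.iterate_succ_apply]
    refine DecRots.succ k T _ _ h1 h0 (ih _ fun i hi => ?_)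
    have := h (i + 1) (by omega)
    rwa [Function.iterate_succ_apply (rotUp x) (i + 1), Function.iterate_succ_apply (rotUp x) i]
      at this

/-- The run of the WPL algorithm is a greedy run. -/
theorem greedy_wpl (σ : List ℕ) : ∀ (T : BT) (w : ℕ → ℕ), GreedyRun T w σ (wplCost T w σ) := by
  induction σ with
  | nil => intro T w; exact GreedyRun.done T w
  | cons x σ ih =>
    intro T w
    rw [wplCost]
    refine GreedyRun.access T _ w x _ _ σ (decRots_iter _ x _ T fun i hi => ?_) (ih _ _)
    have := Nat.notMem_of_lt_sInf hi
    simpa using this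

lemma inorder_rot {T T' : BT} (h : Rot T T') : T'.inorder = T.inorder := by
  induction h with
  | right a b c x y => simp [inorder]
  | left a b c x y => simp [inorder]
  | inLeft l l' r x _ ih => simp [inorder, ih]
  | inRight l r r' x _ ih => simp [inorder, ih]

/-- The zigzag path on the keys `a, …, a + m - 1`. -/
def zig : Bool → ℕ → ℕ → BT
  | _, _, 0 => nil
  | true, a, m + 1 => node nil a (zig false (a + 1) m)
  | false, a, m + 1 => node (zig true a m) (a + m) nil

/-- The keys of the zigzag path from the root down. -/
def zord : Bool → ℕ → ℕ → List ℕ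
  | _, _, 0 => []
  | true, a, m + 1 => a :: zord false (a + 1) m
  | false, a, m + 1 => (a + m) :: zord true a m

lemma inorder_zig (m : ℕ) : ∀ (b : Bool) (a : ℕ), (zig b a m).inorder = List.range' a m := by
  induction m with
  | zero => intro b a; cases b <;> rfl
  | succ m ih =>
    intro b a
    cases b with
    | true => simp [zig, inorder, ih, List.range'_succ]
    | false => simp [zig, inorder, ih, List.range'_concat]

lemma srt_zig (b : Bool) (a m : ℕ) : Srt (zig b a m) := by
  unfold Srt
  rw [inorder_zig]
  exact List.pairwise_lt_range'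

lemma mem_zord (m : ℕ) : ∀ (b : Bool) (a v : ℕ), v ∈ zord b a m → a ≤ v ∧ v < a + m := by
  induction m with
  | zero => intro b a v h; cases b <;> simp [zord] at h
  | succ m ih =>
    intro b a v h
    cases b with
    | true =>
      rcases List.mem_cons.1 h with h | h
      · omega
      · have := ih _ _ _ h; omega
    | false =>
      rcases List.mem_cons.1 h with h | h
      · omega
      · have := ih _ _ _ h; omega

lemma nodup_zord (m : ℕ) : ∀ (b : Bool) (a : ℕ), (zord b a m).Nodup := by
  induction m with
  | zero => intro b a; cases b <;> simp [zord]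
  | succ m ih =>
    intro b a
    cases b with
    | true =>
      exact List.nodup_cons.2 ⟨fun h => by have := mem_zord _ _ _ _ h; omega, ih _ _⟩
    | false =>
      exact List.nodup_cons.2 ⟨fun h => by have := mem_zord _ _ _ _ h; omega, ih _ _⟩

lemma length_zord (m : ℕ) : ∀ (b : Bool) (a : ℕ), (zord b a m).length = m := by
  induction m with
  | zero => intro b a; cases b <;> rfl
  | succ m ih => intro b a; cases b <;> simp [zord, ih]

lemma sum_succ (f : ℕ → ℕ) (L : List ℕ) :
    (L.map fun v => f v + 1).sum = (L.map f).sum + L.length := by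
  induction L with
  | nil => rfl
  | cons x L ih => simp only [List.map_cons, List.sum_cons, List.length_cons, ih]; omega

lemma depth_sum_zig (m : ℕ) : ∀ (b : Bool) (a : ℕ),
    2 * ((zord b a m).map (zig b a m).depth).sum = m * (m + 1) := by
  induction m with
  | zero => intro b a; cases b <;> rfl
  | succ m ih =>
    intro b a
    cases b with
    | true =>
      have e : (zord false (a + 1) m).map (zig true a (m + 1)).depth =
          (zord false (a + 1) m).map fun v => (zig false (a + 1) m).depth v + 1 := by
        apply List.map_congr_left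
        intro v hv
        have := mem_zord _ _ _ _ hv
        have h1 : ¬ v < a := by omega
        have h2 : a < v := by omega
        simp [zig, depth, h1, h2]
      have e2 : (zig true a (m + 1)).depth a = 1 := by simp [zig, depth]
      rw [zord, List.map_cons, List.sum_cons, e, e2, sum_succ, length_zord]
      have := ih false (a + 1)
      nlinarith
    | false =>
      have e : (zord true a m).map (zig false a (m + 1)).depth =
          (zord true a m).map fun v => (zig true a m).depth v + 1 := by
        apply List.map_congr_left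
        intro v hv
        have := mem_zord _ _ _ _ hv
        have h1 : v < a + m := by omega
        simp [zig, depth, h1]
      have e2 : (zig false a (m + 1)).depth (a + m) = 1 := by simp [zig, depth]
      rw [zord, List.map_cons, List.sum_cons, e, e2, sum_succ, length_zord]
      have := ih true a
      nlinarith

lemma wpl_nil (w : ℕ → ℕ) : wpl w nil = 0 := rfl

lemma tot_nil (w : ℕ → ℕ) : tot w nil = 0 := rfl

lemma srt_rot {T T' : BT} (h : Rot T T') (hs : Srt T) : Srt T' := by
  unfold Srt at *
  rwa [inorder_rot h]

lemma tot_rot (w : ℕ → ℕ) {T T' : BT} (h : Rot T T') : tot w T' = tot w T := by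
  unfold tot
  rw [inorder_rot h]

/-- No rotation improves the zigzag path when the weights do not increase from the root down. -/
lemma zig_stable (w : ℕ → ℕ) (m : ℕ) : ∀ (b : Bool) (a : ℕ) (T' : BT),
    (zord b a m).Pairwise (fun x y => w y ≤ w x) → Rot (zig b a m) T' →
    wpl w (zig b a m) ≤ wpl w T' := by
  induction m with
  | zero => intro b a T' _ h; cases b <;> (rw [zig] at h; cases h)
  | succ m ih =>
    intro b a T' hp h
    have hs := srt_zig b a (m + 1)
    have hs' := srt_rot h hs
    cases b with
    | true =>
      rw [zord, List.pairwise_cons] at hp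
      rw [zig] at h hs ⊢
      cases m with
      | zero =>
        rw [zig] at h
        cases h with
        | inLeft _ _ _ _ h => cases h
        | inRight _ _ _ _ h => cases h
      | succ m =>
        have hy := hp.1 (a + 1 + m) (by rw [zord]; exact List.mem_cons_self)
        have ih' := fun T' => ih false (a + 1) T' hp.2
        rw [zig] at h hs ih' ⊢
        cases h with
        | left =>
          rw [wpl_node w hs, wpl_node w hs', wpl_node w (srt_node.1 hs).2.1,
            wpl_node w (srt_node.1 hs').1]
          simp only [tot_node, wpl_nil, tot_nil]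
          omega
        | inLeft _ _ _ _ h => cases h
        | inRight _ _ r' _ h =>
          rw [wpl_node w hs, wpl_node w hs', tot_rot w h]
          have := ih' r' h
          omega
    | false =>
      rw [zord, List.pairwise_cons] at hp
      rw [zig] at h hs ⊢
      cases m with
      | zero =>
        rw [zig] at h
        cases h with
        | inLeft _ _ _ _ h => cases h
        | inRight _ _ _ _ h => cases h
      | succ m =>
        have hy := hp.1 a (by rw [zord]; exact List.mem_cons_self)
        have ih' := fun T' => ih true a T' hp.2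
        rw [zig] at h hs ih' ⊢
        cases h with
        | right =>
          rw [wpl_node w hs, wpl_node w hs', wpl_node w (srt_node.1 hs).1,
            wpl_node w (srt_node.1 hs').2.1]
          simp only [tot_node, wpl_nil, tot_nil]
          omega
        | inRight _ _ _ _ h => cases h
        | inLeft _ l' _ _ h =>
          rw [wpl_node w hs, wpl_node w hs', tot_rot w h]
          have := ih' l' h
          omega

lemma run_block {T : BT} {L1 L2 : List ℕ} {x k : ℕ} (hnd : (L1 ++ x :: L2).Nodup)
    (stab : ∀ (w : ℕ → ℕ) (T' : BT), (L1 ++ x :: L2).Pairwise (fun x y => w y ≤ w x) →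
      Rot T T' → wpl w T ≤ wpl w T') (τ : List ℕ) (j : ℕ) :
    ∀ (w : ℕ → ℕ) (c : ℕ), (∀ v ∈ L1, w v = k) → (∀ v ∈ L2, w v = 0) → w x + j = k →
      GreedyRun T w (List.replicate j x ++ τ) c →
      ∃ w' c', (∀ v ∈ L1, w' v = k) ∧ (∀ v ∈ L2, w' v = 0) ∧ w' x = k ∧ GreedyRun T w' τ c' ∧
        j * T.depth x + c' ≤ c := by
  have hx1 : ∀ v ∈ L1, v ≠ x := fun v hv =>
    (List.nodup_append.1 hnd).2.2 v hv x List.mem_cons_self
  have hx2 : ∀ v ∈ L2, v ≠ x := fun v hv e =>
    (List.nodup_cons.1 (List.nodup_append.1 hnd).2.1).1 (e ▸ hv)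
  induction j with
  | zero =>
    intro w c h1 h2 h3 h
    exact ⟨w, c, h1, h2, by simpa using h3, by simpa using h, by simp⟩
  | succ j ih =>
    intro w c h1 h2 h3 h
    rw [List.replicate_succ, List.cons_append] at h
    cases h with
    | access _ T' _ _ i c' _ hd hr =>
      set u := Function.update w x (w x + 1) with hu
      have u1 : ∀ v ∈ L1, u v = k := fun v hv => by
        rw [hu, Function.update_of_ne (hx1 v hv)]; exact h1 v hv
      have u2 : ∀ v ∈ L2, u v = 0 := fun v hv => by
        rw [hu, Function.update_of_ne (hx2 v hv)]; exact h2 v hv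
      have u3 : u x = w x + 1 := by rw [hu, Function.update_self]
      have hp : (L1 ++ x :: L2).Pairwise (fun x y => u y ≤ u x) := by
        rw [List.pairwise_append, List.pairwise_cons]
        refine ⟨List.pairwise_of_forall_mem_list fun a ha b hb => ?_,
          ⟨fun b hb => ?_, List.pairwise_of_forall_mem_list fun a ha b hb => ?_⟩,
          fun a ha b hb => ?_⟩
        · rw [u1 a ha, u1 b hb]
        · rw [u2 b hb]; exact Nat.zero_le _
        · rw [u2 b hb]; exact Nat.zero_le _
        · rcases List.mem_cons.1 hb with e | hb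
          · rw [e, u1 a ha, u3]; omega
          · rw [u2 b hb]; exact Nat.zero_le _
      have hT : T' = T := by
        cases hd with
        | zero => rfl
        | succ _ _ T1 _ r1 r2 _ => exact absurd (stab u T1 hp r1) (by omega)
      subst hT
      obtain ⟨w', c'', a1, a2, a3, a4, a5⟩ := ih u c' u1 u2 (by omega) hr
      refine ⟨w', c'', a1, a2, a3, a4, ?_⟩
      rw [Nat.succ_mul]
      omega

lemma run_blocks {T : BT} {L : List ℕ} {k : ℕ} (hnd : L.Nodup)
    (stab : ∀ (w : ℕ → ℕ) (T' : BT), L.Pairwise (fun x y => w y ≤ w x) →
      Rot T T' → wpl w T ≤ wpl w T') (L2 : List ℕ) :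
    ∀ (L1 : List ℕ) (w : ℕ → ℕ) (c : ℕ), L = L1 ++ L2 → (∀ v ∈ L1, w v = k) →
      (∀ v ∈ L2, w v = 0) → GreedyRun T w (L2.flatMap (List.replicate k)) c →
      k * (L2.map T.depth).sum ≤ c := by
  induction L2 with
  | nil => intro L1 w c _ _ _ _; simp
  | cons x L2 ih =>
    intro L1 w c e h1 h2 h
    subst e
    rw [List.flatMap_cons] at h
    obtain ⟨w', c', a1, a2, a3, a4, a5⟩ := run_block hnd stab _ k w c h1
      (fun v hv => h2 v (List.mem_cons_of_mem _ hv)) (by rw [h2 x List.mem_cons_self]; omega) h
    have := ih (L1 ++ [x]) w' c' (by simp) (fun v hv => by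
      rcases List.mem_append.1 hv with hv | hv
      · exact a1 v hv
      · rw [List.mem_singleton.1 hv]; exact a3) a2 a4
    rw [List.map_cons, List.sum_cons, Nat.mul_add]
    omega

lemma serves_flat {n k : ℕ} (L : List ℕ) : ∀ T : BT, T.inorder = List.range' 1 n →
    (∀ v ∈ L, 1 ≤ v ∧ v < 1 + n) →
    ∃ c, Serves T (L.flatMap (List.replicate (k + 1))) c ∧ c ≤ L.length * (2 * n + k) := by
  induction L with
  | nil => intro T _ _; exact ⟨0, Serves.done T, by simp⟩
  | cons x L ih =>
    intro T hT hL
    obtain ⟨i, T', h1, h2, h3, h4⟩ := toRoot (x := x) _ T (srt_of_range hT)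
      (by rw [hT, List.mem_range'_1]; exact hL x List.mem_cons_self) le_rfl
    obtain ⟨c, h5, h6⟩ := ih T' (h3.trans hT) fun v hv => hL v (List.mem_cons_of_mem _ hv)
    rw [List.flatMap_cons, List.replicate_succ, List.cons_append]
    refine ⟨_, Serves.access T T' x i _ _ h1 (serves_root h4 h5 k), ?_⟩
    have h7 := depth_le_length T x
    rw [hT, List.length_range'] at h7
    rw [List.length_cons, Nat.succ_mul]
    omega

theorem greedy_main (n : ℕ) (hn : 1 ≤ n) (B : ℕ) :
    ∃ (T₀ : BT) (σ : List ℕ), T₀.inorder = List.range' 1 n ∧ (∀ x ∈ σ, 1 ≤ x ∧ x ≤ n) ∧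
      ∀ c, GreedyRun T₀ (fun _ => 0) σ c → n * opt T₀ σ + B < 2 * c := by
  set k := 2 * n * n + B with hk
  refine ⟨zig true 1 n, (zord true 1 n).flatMap (List.replicate (k + 1)), inorder_zig n true 1,
    fun x hx => ?_, fun c hc => ?_⟩
  · obtain ⟨v, hv, hx⟩ := List.mem_flatMap.1 hx
    have := mem_zord _ _ _ _ hv
    rw [List.eq_of_mem_replicate hx]
    omega
  have h1 := run_blocks (nodup_zord n true 1) (fun w T' => zig_stable w n true 1 T') _ []
    (fun _ => 0) c rfl (by simp) (fun _ _ => rfl) hc
  have h2 := depth_sum_zig n true 1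
  obtain ⟨d, h3, h4⟩ := serves_flat (k := k) (zord true 1 n) _ (inorder_zig n true 1)
    (mem_zord n true 1)
  rw [length_zord] at h4
  have h5 : opt (zig true 1 n) ((zord true 1 n).flatMap (List.replicate (k + 1))) ≤ d :=
    Nat.sInf_le h3
  have h6 := Nat.mul_le_mul_left n (h5.trans h4)
  have h7 : (k + 1) * (n * (n + 1)) ≤ 2 * c := by rw [← h2]; nlinarith
  have h8 : 2 * n * n * n + B ≤ k * n := by rw [hk]; nlinarith
  nlinarith

end BT

end Pool.Agent.Work.MP_69b7b0_lc
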